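import Mathlib

/-!
# The UCT problem: rational part and torsion parts; data and known facts
-/

namespace Pool.Agent.N522.UC

/-- Coefficients: `D_M` is a separable nuclear C*-algebra in the bootstrap class with `K_0 = M` and
`K_1 = 0`. -/
inductive Coeff where
  /-- `M = ℚ`, with `D_M` the universal UHF algebra -/
  | rat : Coeff
  /-- `M = ℤ/p^(n+1)`, with `D_M = 𝒪_{p^(n+1)+1}` -/
  | cyclic (p n : ℕ) : Coeff
  /-- `M = ℤ[1/p]/ℤ` -/
  | prufer (p : ℕ) : Coeff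
  /-- `M = ℚ/ℤ` -/
  | ratMod : Coeff

/-- Separable nuclear C*-algebras. -/
structure Theory where
  /-- separable nuclear C*-algebras -/
  Alg : Type
  /-- `A` satisfies the UCT -/
  Uct : Alg → Prop
  /-- `A ⊗ D_M` -/
  tens : Alg → Coeff → Alg
  /-- `A` is a unital Kirchberg algebra with `K_*(A) = 0` -/
  Kz : Alg → Prop
  /-- `A ≅ 𝒪_2` -/
  IsO2 : Alg → Prop
  /-- `A ≅ A ⊗ 𝒬`, `𝒬` the universal UHF algebra -/
  Rational : Alg → Prop
  /-- `p · KK(A, A) = 0` -/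
  Killed : ℕ → Alg → Prop

variable {T : Theory}

/-- Q1 -/
def Q1 (T : Theory) : Prop := ∀ A : T.Alg, T.Uct A

/-- Known facts. -/
structure Facts (T : Theory) : Prop where
  /-- the class with UCT is closed under tensor products with algebras of the bootstrap class -/
  tensor : ∀ A M, T.Uct A → T.Uct (T.tens A M)
  /-- exact triangle of `ℤ/p → ℤ/p^(n+2) → ℤ/p^(n+1)` in KK, tensored with `A` -/
  step : ∀ A p n, p.Prime → T.Uct (T.tens A (.cyclic p 0)) → T.Uct (T.tens A (.cyclic p n)) →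
    T.Uct (T.tens A (.cyclic p (n + 1)))
  /-- `ℤ[1/p]/ℤ` is the union of its subgroups `ℤ/p^n`: inductive limit -/
  union : ∀ A p, p.Prime → (∀ n, T.Uct (T.tens A (.cyclic p n))) → T.Uct (T.tens A (.prufer p))
  /-- `ℚ/ℤ` is the direct sum of the `ℤ[1/p]/ℤ` -/
  sum : ∀ A, (∀ p : ℕ, p.Prime → T.Uct (T.tens A (.prufer p))) → T.Uct (T.tens A .ratMod)
  /-- exact triangle of `ℤ → ℚ → ℚ/ℤ` in KK, tensored with `A` -/
  triangle : ∀ A, T.Uct (T.tens A .rat) → T.Uct (T.tens A .ratMod) → T.Uct A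
  /-- a unital Kirchberg algebra with UCT and `K_* = 0` is `𝒪_2` (Kirchberg, Phillips) -/
  classify : ∀ A, T.Uct A → T.Kz A → T.IsO2 A
  /-- For `B = A ⊗ 𝒬` there is a unital Kirchberg algebra `C` with `K_*(C) = 0` and `C ≅ C ⊗ 𝒬`, such
  that `B` satisfies the UCT if `C ≅ 𝒪_2` (`C` is KK-equivalent to the cone of a map to `B` from an
  algebra of the bootstrap class that is an isomorphism in K-theory, tensored with `𝒬`). -/
  coneRat : ∀ A, ∃ C, T.Kz C ∧ T.Rational C ∧ (T.IsO2 C → T.Uct (T.tens A .rat))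
  /-- For `B = A ⊗ 𝒪_{p+1}` the same with `p · KK(C, C) = 0`: the UCT for `𝒪_{p+1}` gives
  `p · KK(𝒪_{p+1}, 𝒪_{p+1}) = 0`. -/
  coneTors : ∀ A (p : ℕ), p.Prime →
    ∃ C, T.Kz C ∧ T.Killed p C ∧ (T.IsO2 C → T.Uct (T.tens A (.cyclic p 0)))

theorem uct_cyclic (F : Facts T) (A : T.Alg) (p : ℕ) (hp : p.Prime)
    (h : T.Uct (T.tens A (.cyclic p 0))) : ∀ n, T.Uct (T.tens A (.cyclic p n))
  | 0 => h
  | n + 1 => F.step A p n hp h (uct_cyclic F A p hp h n)

/-- One algebra. -/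
theorem uct_iff (F : Facts T) (A : T.Alg) :
    T.Uct A ↔ T.Uct (T.tens A .rat) ∧ ∀ p : ℕ, p.Prime → T.Uct (T.tens A (.cyclic p 0)) :=
  ⟨fun h => ⟨F.tensor A _ h, fun _ _ => F.tensor A _ h⟩, fun h =>
    F.triangle A h.1 (F.sum A fun p hp => F.union A p hp (uct_cyclic F A p hp (h.2 p hp)))⟩

/-- Q1 in terms of Kirchberg algebras with trivial K-theory over `ℚ` or `𝔽_p`. -/
theorem q1_iff (F : Facts T) : Q1 T ↔
    (∀ C, T.Kz C → T.Rational C → T.IsO2 C) ∧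
      ∀ p : ℕ, p.Prime → ∀ C, T.Kz C → T.Killed p C → T.IsO2 C := by
  refine ⟨fun h => ⟨fun C hC _ => F.classify C (h C) hC, fun p _ C hC _ =>
    F.classify C (h C) hC⟩, fun h A => (uct_iff F A).2 ⟨?_, fun p hp => ?_⟩⟩
  · obtain ⟨C, h1, h2, h3⟩ := F.coneRat A
    exact h3 (h.1 C h1 h2)
  · obtain ⟨C, h1, h2, h3⟩ := F.coneTors A p hp
    exact h3 (h.2 p hp C h1 h2)

end Pool.Agent.N522.UC
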